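import Pool.Agent.W2helper24.IW.FORM

set_option autoImplicit false

namespace Pool.Agent.W2helper81.IT

open IntermediateField Module Pool.Agent.Q60.MU Pool.Agent.W5h77.MB Pool.Agent.W2helper81.IW
  Pool.Agent.W2helper24.IW
open scoped Pointwise

section alg

variable {p : ℕ} [Fact p.Prime] {G : Type} [Group G]
variable {W : Type} [AddCommGroup W] [Module (ZMod p) W]

theorem card_An_eq [Finite W] {U U' : Submodule (ZMod p) W} (h : U ≤ U') {d : ℕ}
    (hd : finrank (ZMod p) U' ≤ finrank (ZMod p) U + d) : Nat.card (An U U') ≤ p ^ d := by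
  have hmfU : Module.Finite (ZMod p) U' := Module.Finite.of_finite
  have h0 : An U U' = (U.comap U'.subtype).dualAnnihilator := by
    ext φ
    rw [Submodule.mem_dualAnnihilator]
    constructor
    · intro h1 x hx
      exact h1 x hx
    · intro h1 x hx
      exact h1 x hx
  have h1 := Subspace.finrank_add_finrank_dualAnnihilator_eq (U.comap U'.subtype)
  have h2 : finrank (ZMod p) (U.comap U'.subtype) = finrank (ZMod p) U :=
    (Submodule.comapSubtypeEquivOfLe h).finrank_eq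
  have h3 : finrank (ZMod p) (An U U') ≤ d := by
    rw [h0]
    omega
  have hfin : Finite (An U U') := (card_An U U').1
  have hmfA : Module.Finite (ZMod p) (An U U') := Module.Finite.of_finite
  rw [Module.natCard_eq_pow_finrank (K := ZMod p) (V := An U U'), Nat.card_zmod]
  exact Nat.pow_le_pow_right (Fact.out : p.Prime).pos h3

theorem form_alg' [Finite W] (ρ : Representation (ZMod p) G W) {U U' : Submodule (ZMod p) W}
    (hU : Stable ρ U) (hU' : Stable ρ U') (hlt : U < U') {d : ℕ}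
    (hd : finrank (ZMod p) U' ≤ finrank (ZMod p) U + d) (N₀ : Subgroup G) (hN : N₀.Normal)
    (hN0 : N₀.index ≠ 0) (hNρ : ∀ g ∈ N₀, ∀ x, ρ g x = x) :
    ∃ f : W →ₗ[ZMod p] ZMod p, (∀ x ∈ U, f x = 0) ∧ (∃ x ∈ U', f x ≠ 0) ∧
      ∃ S : Subgroup G, (∀ g, (∀ x ∈ U', f (ρ g x) = f x) ↔ g ∈ S) ∧ ¬ p ∣ S.index ∧
        S.index < p ^ d ∧ N₀ ≤ S := by
  obtain ⟨hfinA, -⟩ := card_An U U'
  have hmfA : Module.Finite (ZMod p) (An U U') := Module.Finite.of_finite
  have hnt := nontrivial_An hlt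
  have hτN : ∀ g ∈ N₀, ∀ φ, actAn ρ hU hU' g φ = φ := by
    intro g hg φ
    apply Subtype.ext
    apply LinearMap.ext
    intro x
    rw [actAn_apply]
    congr 1
    apply Subtype.ext
    exact hNρ _ (inv_mem hg) x
  obtain ⟨v, hv0, P, hP, hPp⟩ := exists_vec_P hN hN0 (actAn ρ hU hU') hτN
  obtain ⟨f, hf⟩ := LinearMap.exists_extend v.1
  have hfx : ∀ x (hx : x ∈ U'), f x = v.1 ⟨x, hx⟩ := fun x hx => by
    rw [← hf]
    rfl
  refine ⟨f, fun x hx => ?_, ?_, stab (actAn ρ hU hU') v, fun g => ?_, ?_, ?_, ?_⟩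
  · rw [hfx x (hlt.le hx)]
    exact v.2 ⟨x, hlt.le hx⟩ hx
  · by_contra hcon
    push Not at hcon
    apply hv0
    apply Subtype.ext
    apply LinearMap.ext
    intro x
    have := hcon x.1 x.2
    rw [hfx _ x.2] at this
    exact this
  · rw [← inv_mem_iff, mem_stab]
    constructor
    · intro h
      apply Subtype.ext
      apply LinearMap.ext
      intro x
      have h1 := h x.1 x.2
      rw [hfx _ x.2, hfx _ (hU' g _ x.2)] at h1
      rw [actAn_apply]
      simp only [inv_inv]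
      exact h1
    · intro h x hx
      have h1 := actAn_apply ρ hU hU' g⁻¹ v ⟨x, hx⟩
      rw [h] at h1
      simp only [inv_inv] at h1
      rw [hfx _ hx, hfx _ (hU' g _ hx)]
      exact h1.symm
  · exact fun h => hPp (h.trans (Subgroup.index_dvd_of_le hP))
  · exact (index_stab_lt _ hv0).trans_le (card_An_eq hlt.le hd)
  · exact fun g hg => hτN g hg v

end alg

theorem form_dim {p : ℕ} (hp : p.Prime) {K : IntermediateField ℚ Qb} (hK : FiniteDimensional ℚ K)
    {W : Type} [AddCommGroup W] [Module (ZMod p) W] [Finite W]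
    (ρ : Representation (ZMod p) K.fixingSubgroup W) (hρ : IW.IsCont ρ)
    {U U' : Submodule (ZMod p) W} (hstep : IW.IsStep ρ U U') {d : ℕ}
    (hd : finrank (ZMod p) U' ≤ finrank (ZMod p) U + d) :
    ∃ f : W →ₗ[ZMod p] ZMod p, (∀ x ∈ U, f x = 0) ∧ (∃ x ∈ U', f x ≠ 0) ∧
      FiniteDimensional ℚ (IW.formField ρ U' f) ∧ K ≤ IW.formField ρ U' f ∧
      ∃ e : ℕ, finrank ℚ (IW.formField ρ U' f) = e * finrank ℚ K ∧ ¬ p ∣ e ∧ e < p ^ d := by
  have : Fact p.Prime := ⟨hp⟩
  obtain ⟨hU, hU', hlt, -⟩ := hstep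
  obtain ⟨N, hN, hNρ⟩ := hρ
  have hNle : N.fixingSubgroup.subgroupOf K.fixingSubgroup ≤
      MonoidHom.ker (ρ : K.fixingSubgroup →* Module.End (ZMod p) W) := by
    intro g hg
    rw [MonoidHom.mem_ker]
    apply LinearMap.ext
    intro x
    exact hNρ g hg x
  have hN0 : (MonoidHom.ker (ρ : K.fixingSubgroup →* Module.End (ZMod p) W)).index ≠ 0 := by
    have h1 : N.fixingSubgroup.FiniteIndex := ⟨index_ne_zero' N⟩
    have h2 : (N.fixingSubgroup.subgroupOf K.fixingSubgroup).index ≠ 0 :=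
      (inferInstance : (N.fixingSubgroup.subgroupOf K.fixingSubgroup).FiniteIndex).index_ne_zero
    intro h
    apply h2
    have := Subgroup.index_dvd_of_le hNle
    rw [h] at this
    exact zero_dvd_iff.1 this
  obtain ⟨f, hf0, hf1, S, hS, hSp, hSlt, hNS⟩ := form_alg' ρ hU hU' hlt hd _
    (MonoidHom.normal_ker _) hN0 (fun g hg x => by
      have h1 : ρ g = 1 := MonoidHom.mem_ker.1 hg
      rw [h1]
      rfl)
  obtain ⟨h1, h2, h3⟩ := field_part hK hN ρ U' f S hS (hNle.trans hNS)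
  exact ⟨f, hf0, hf1, h1, h2, S.index, h3, hSp, hSlt⟩

end Pool.Agent.W2helper81.IT
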