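import Pool.Agent.W2helper81.IW.Fin

/-!
# Everywhere unramified cocycles: the definitions of the statements

`Qb` is the field of algebraic numbers, `K` a number field in `Qb`, `W` a finite `𝔽_p`-vector space with a
continuous action `ρ` of `G K = Gal(Qb/K)`.
-/

set_option autoImplicit false

namespace Pool.Agent.W2helper81.IT

open IntermediateField Module Pool.Agent.Q60.MU Pool.Agent.W5h77.MB

variable {p : ℕ} {K E : IntermediateField ℚ Qb} {W : Type} [AddCommGroup W] [Module (ZMod p) W]

/-- `G K = Gal(Qb/K)`. -/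
def G (K : IntermediateField ℚ Qb) : Type := K.fixingSubgroup

noncomputable instance instG (K : IntermediateField ℚ Qb) : Group (G K) := K.fixingSubgroup.toGroup

/-- `g z` for `g` in `Gal(Qb/K)` and `z` in `Qb`. -/
noncomputable def app (g : G K) (z : Qb) : Qb := g.1 z

/-- `GE K E` is the set `Gal(Qb/K) ∩ Gal(Qb/E)`. -/
def GE (K E : IntermediateField ℚ Qb) : Type := {g : G K // ∀ z ∈ E, app g z = z}

/-- `g x` for `g` in `Gal(Qb/K)` and `x` in `W`. -/
noncomputable def act (ρ : Representation (ZMod p) (G K) W) (g : G K) (x : W) : W := ρ g x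

/-- `g` is in the inertia group of the valuation ring `A` of `Qb`: it maps `A` to `A` and acts trivially on the
residue field. -/
def Inert (A : ValuationSubring Qb) (g : G K) : Prop :=
  (∀ z, z ∈ A ↔ app g z ∈ A) ∧ ∀ z ∈ A, app g z - z ∈ A.nonunits

/-- The action `ρ` is continuous: it is trivial on `Gal(Qb/N)` for some number field `N`. -/
def IsCont (ρ : Representation (ZMod p) (G K) W) : Prop :=
  ∃ N : IntermediateField ℚ Qb, FiniteDimensional ℚ N ∧
    ∀ g : G K, (∀ z ∈ N, app g z = z) → ∀ x, act ρ g x = x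

/-- `U` is stable under the action `ρ`. -/
def IsSub (ρ : Representation (ZMod p) (G K) W) (U : Submodule (ZMod p) W) : Prop :=
  ∀ g, ∀ x ∈ U, act ρ g x ∈ U

/-- `U < U'` are stable and `U' / U` is simple. -/
def IsStep (ρ : Representation (ZMod p) (G K) W) (U U' : Submodule (ZMod p) W) : Prop :=
  IsSub ρ U ∧ IsSub ρ U' ∧ U < U' ∧ ∀ V, IsSub ρ V → U ≤ V → V ≤ U' → V = U ∨ V = U'

/-- The everywhere unramified continuous 1-cocycles `c` of `Gal(Qb/E)` with values in `W`, for `E ⊇ K`: there is a
number field `N` such that `c` is zero on the elements which fix `N`, and the restriction of `c` to the inertia group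
of each valuation ring is a coboundary. -/
def Coc (ρ : Representation (ZMod p) (G K) W) (E : IntermediateField ℚ Qb) : Set (GE K E → W) :=
  {c | (∀ g h k, k.1 = g.1 * h.1 → c k = c g + act ρ g.1 (c h)) ∧
    (∃ N : IntermediateField ℚ Qb, FiniteDimensional ℚ N ∧
      ∀ g, (∀ z ∈ N, app g.1 z = z) → c g = 0) ∧
    ∀ A : ValuationSubring Qb, ∃ w : W, ∀ g, Inert A g.1 → c g = act ρ g.1 w - w}

/-- The set has at most `C` elements. -/
def AtMost {X : Type} (S : Set X) (C : ℕ) : Prop := S.Finite ∧ S.ncard ≤ C

/-- The number of the everywhere unramified cocycles is bounded in the cyclotomic `ℤ_p`-extension of `K`, whose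
layers are the fields `K R`, where `R` is a layer of the cyclotomic `ℤ_p`-extension of `ℚ`. -/
def QOne (ρ : Representation (ZMod p) (G K) W) : Prop :=
  ∃ C : ℕ, ∀ (m : ℕ) (R : IntermediateField ℚ Qb), IsLayer p m R → AtMost (Coc ρ (K ⊔ R)) C

/-- The everywhere unramified continuous homomorphisms `Gal(Qb/E) → 𝔽_p`. -/
def Hom (p : ℕ) (E : IntermediateField ℚ Qb) : Set (G E → ZMod p) :=
  {χ | (∀ g h, χ (g * h) = χ g + χ h) ∧
    (∃ N : IntermediateField ℚ Qb, FiniteDimensional ℚ N ∧ ∀ g, (∀ z ∈ N, app g z = z) → χ g = 0) ∧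
    ∀ (A : ValuationSubring Qb) (g : G E), Inert A g → χ g = 0}

/-- The classical invariant `μ` of the cyclotomic `ℤ_p`-extension of `E` vanishes: the number of everywhere
unramified homomorphisms to `𝔽_p` (the order of the dual of `Cl / p`) is bounded for the layers. -/
def MuZero (p : ℕ) (E : IntermediateField ℚ Qb) : Prop :=
  ∃ C : ℕ, ∀ (m : ℕ) (R : IntermediateField ℚ Qb), IsLayer p m R → AtMost (Hom p (E ⊔ R)) C

/-- The field `K(f)` of the restriction of the linear form `f` to the stable subspace `U`: the field of the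
numbers fixed by all `g` in `Gal(Qb/K)` with `f (g x) = f x` for all `x ∈ U`. -/
noncomputable def formField (ρ : Representation (ZMod p) (G K) W) (U : Submodule (ZMod p) W)
    (f : W →ₗ[ZMod p] ZMod p) : IntermediateField ℚ Qb :=
  adjoin ℚ {z : Qb | ∀ g : G K, (∀ x ∈ U, f (act ρ g x) = f x) → app g z = z}

end Pool.Agent.W2helper81.IT
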