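import Pool.Agent.W2helper81.IT.Defs

set_option autoImplicit false

namespace Pool.Agent.W2helper81.IT

open IntermediateField Module Pool.Agent.Q60.MU Pool.Agent.W5h77.MB Pool.Agent.W2helper81
open scoped Pointwise

variable {p : ℕ} {K E : IntermediateField ℚ Qb} {W : Type} [AddCommGroup W] [Module (ZMod p) W]

theorem mem_fix {σ : Gal(Qb/ℚ)} {N : IntermediateField ℚ Qb} :
    σ ∈ N.fixingSubgroup ↔ ∀ z ∈ N, σ z = z := IntermediateField.mem_fixingSubgroup_iff N σ

theorem inert_iff (A : ValuationSubring Qb) (g : G K) : Inert A g ↔ g.1 ∈ inertia A := by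
  rw [mem_inertia]
  constructor
  · rintro ⟨h1, h2⟩
    refine ⟨?_, h2⟩
    ext x
    rw [ValuationSubring.mem_pointwise_smul_iff_inv_smul_mem]
    have h3 := h1 (g.1⁻¹ • x)
    have h4 : app g (g.1⁻¹ • x) = x := by
      show g.1 (g.1⁻¹ x) = x
      rw [← AlgEquiv.mul_apply, mul_inv_cancel, AlgEquiv.one_apply]
    rw [h4] at h3
    exact h3
  · rintro ⟨h1, h2⟩
    refine ⟨fun z => ?_, h2⟩
    constructor
    · intro hz
      have h3 := ValuationSubring.smul_mem_pointwise_smul g.1 z A hz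
      rw [h1] at h3
      exact h3
    · intro hz
      have h3 : app g z ∈ g.1 • A := by rw [h1]; exact hz
      rw [ValuationSubring.mem_pointwise_smul_iff_inv_smul_mem] at h3
      have h4 : g.1⁻¹ • app g z = z := by
        show g.1⁻¹ (g.1 z) = z
        rw [← AlgEquiv.mul_apply, inv_mul_cancel, AlgEquiv.one_apply]
      rwa [h4] at h3

theorem open_iff {X : Type} (φ : X → Gal(Qb/ℚ)) (P : X → Prop) :
    (∃ N : IntermediateField ℚ Qb, FiniteDimensional ℚ N ∧ ∀ g, (∀ z ∈ N, φ g z = z) → P g) ↔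
      ∃ V : Subgroup Gal(Qb/ℚ), IsOpen (V : Set Gal(Qb/ℚ)) ∧ ∀ g, φ g ∈ V → P g := by
  constructor
  · rintro ⟨N, hN, h⟩
    exact ⟨N.fixingSubgroup, N.fixingSubgroup_isOpen, fun g hg => h g (mem_fix.1 hg)⟩
  · rintro ⟨V, hV, h⟩
    have h1 : (V : Set Gal(Qb/ℚ)) ∈ nhds (1 : Gal(Qb/ℚ)) := hV.mem_nhds V.one_mem
    rw [krullTopology_mem_nhds_one_iff] at h1
    obtain ⟨N, hN, hNV⟩ := h1
    exact ⟨N, hN, fun g hg => h g (hNV (mem_fix.2 hg))⟩

/-- The representation of the subgroup. -/
def old (ρ : Representation (ZMod p) (G K) W) : Representation (ZMod p) K.fixingSubgroup W := ρ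

/-- The two forms of `Gal(Qb/E)`. -/
noncomputable def eGE (K E : IntermediateField ℚ Qb) : GE K E ≃ IW.GalOf K E where
  toFun g := ⟨g.1, Subgroup.mem_subgroupOf.2 (mem_fix.2 g.2)⟩
  invFun g := ⟨g.1, mem_fix.1 (Subgroup.mem_subgroupOf.1 g.2)⟩
  left_inv _ := rfl
  right_inv _ := rfl

theorem coc_iff (ρ : Representation (ZMod p) (G K) W) (E : IntermediateField ℚ Qb) (c : IW.GalOf K E → W) :
    (fun g => c (eGE K E g)) ∈ Coc ρ E ↔ c ∈ IW.Coc (old ρ) E := by
  refine and_congr ?_ (and_congr ?_ ?_)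
  · constructor
    · intro h g k
      exact h ((eGE K E).symm g) ((eGE K E).symm k) ((eGE K E).symm (g * k)) rfl
    · intro h g k l hl
      have h1 : eGE K E l = eGE K E g * eGE K E k := Subtype.ext hl
      show c (eGE K E l) = _
      rw [h1]
      exact h _ _
  · refine (open_iff (X := GE K E) (fun g => g.1.1) fun g => c (eGE K E g) = 0).trans ?_
    refine exists_congr fun V => and_congr Iff.rfl ?_
    exact (eGE K E).forall_congr fun {g} => Iff.rfl
  · refine forall_congr' fun A => exists_congr fun w => ?_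
    refine (eGE K E).forall_congr fun {g} => ?_
    exact imp_congr (inert_iff A g.1) Iff.rfl

theorem atMost_coc (ρ : Representation (ZMod p) (G K) W) (E : IntermediateField ℚ Qb) (C : ℕ) :
    AtMost (Coc ρ E) C ↔ IW.AtMost (IW.Coc (old ρ) E) C := by
  let Φ : (IW.GalOf K E → W) ≃ (GE K E → W) := (eGE K E).symm.arrowCongr (Equiv.refl W)
  have h1 : Coc ρ E = Φ '' IW.Coc (old ρ) E := by
    apply Set.ext
    intro c
    rw [Equiv.image_eq_preimage_symm, Set.mem_preimage, ← coc_iff]
    exact Iff.rfl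
  show (Coc ρ E).Finite ∧ (Coc ρ E).ncard ≤ C ↔ _
  rw [h1, Set.ncard_image_of_injective _ Φ.injective, Set.finite_image_iff Φ.injective.injOn]
  exact Iff.rfl

theorem qOne_iff (ρ : Representation (ZMod p) (G K) W) : QOne ρ ↔ IW.QOne (old ρ) := by
  refine exists_congr fun C => forall_congr' fun m => forall_congr' fun R => imp_congr Iff.rfl ?_
  exact atMost_coc ρ _ C

theorem hom_eq (p : ℕ) (E : IntermediateField ℚ Qb) : Hom p E = IW.Hom p E := by
  apply Set.ext
  intro c
  refine and_congr Iff.rfl (and_congr ?_ ?_)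
  · exact open_iff (X := G E) (fun g => g.1) fun g => c g = 0
  · refine forall_congr' fun A => forall_congr' fun g => ?_
    exact imp_congr (inert_iff A g) Iff.rfl

theorem atMost_hom (p : ℕ) (E : IntermediateField ℚ Qb) (C : ℕ) :
    AtMost (Hom p E) C ↔ IW.AtMost (IW.Hom p E) C := by
  rw [hom_eq]
  exact Iff.rfl

theorem muZero_iff (hH : IW.P_HOM) (hp : p.Prime) (E : IntermediateField ℚ Qb) (hE : FiniteDimensional ℚ E) :
    MuZero p E ↔ Pool.Agent.W5h77.MB.MuZero p E := by
  have hpf : Fact p.Prime := ⟨hp⟩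
  refine exists_congr fun C => forall_congr' fun m => forall_congr' fun R => forall_congr' fun hL => ?_
  have hRf : FiniteDimensional ℚ R := layer_fd hp hL
  have hER : FiniteDimensional ℚ ↥(E ⊔ R) := inferInstance
  rw [atMost_hom]
  exact (hH p hp _ hER C).symm

theorem isCont_iff (ρ : Representation (ZMod p) (G K) W) : IsCont ρ ↔ IW.IsCont (old ρ) := by
  refine exists_congr fun N => and_congr Iff.rfl (forall_congr' fun g => imp_congr ?_ Iff.rfl)
  exact mem_fix.symm

theorem isStep_iff (ρ : Representation (ZMod p) (G K) W) (U U' : Submodule (ZMod p) W) :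
    IsStep ρ U U' ↔ IW.IsStep (old ρ) U U' := Iff.rfl

theorem formField_eq (ρ : Representation (ZMod p) (G K) W) (U : Submodule (ZMod p) W)
    (f : W →ₗ[ZMod p] ZMod p) : formField ρ U f = IW.formField (old ρ) U f := by
  have key : ∀ z : Qb, z ∈ IW.formField (old ρ) U f ↔
      ∀ g : G K, (∀ x ∈ U, f (act ρ g x) = f x) → app g z = z := by
    intro z
    unfold IW.formField
    rw [IntermediateField.mem_fixedField_iff]
    constructor
    · intro h g hg
      exact h g.1 (Subgroup.subset_closure ⟨g.2, hg⟩)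
    · intro h σ hσ
      have h1 : Subgroup.closure {g : Gal(Qb/ℚ) | ∃ h : g ∈ K.fixingSubgroup,
          ∀ x ∈ U, f (old ρ ⟨g, h⟩ x) = f x} ≤ MulAction.stabilizer Gal(Qb/ℚ) z := by
        rw [Subgroup.closure_le]
        rintro τ ⟨h2, h3⟩
        exact h ⟨τ, h2⟩ h3
      exact h1 hσ
  apply le_antisymm
  · unfold formField
    rw [adjoin_le_iff]
    intro z hz
    exact (key z).2 hz
  · intro z hz
    exact subset_adjoin ℚ _ ((key z).1 hz)

end Pool.Agent.W2helper81.IT
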